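import Pool.Agent.K1H77.PA.Stm

/-!
# Piece PA12 of the project PA (helper77): assembly of the unit equation
-/

set_option autoImplicit false

namespace Pool.Agent.K1H65.PA

open Pool.Agent.K1H77.PA Filter

/-! ## From linear independence of germs to the unit equation -/

section UT

variable {L : Type} [Field L]

lemma isolated (hU : ULI L) (G : Subgroup Lˣ) (hG : G.FG) (𝒰 : Ultrafilter ℕ) {ι : Type}
    [DecidableEq ι] (f : ι → ℕ → Lˣ) (hf : ∀ i n, f i n ∈ G) :
    ∀ (N : ℕ) (S : Finset ι), S.card = N → ∀ a : ι → L,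
      (∀ᶠ n in (𝒰 : Filter ℕ), ∑ i ∈ S, a i * (f i n : L) = 0) → ∀ i ∈ S, a i ≠ 0 →
      ∃ j ∈ S, j ≠ i ∧ ∃ c : L, ∀ᶠ n in (𝒰 : Filter ℕ), (f i n : L) = c * f j n := by
  intro N
  induction N with
  | zero =>
    intro S hS a _ i hi
    rw [Finset.card_eq_zero] at hS
    subst hS
    exact absurd hi (Finset.notMem_empty i)
  | succ N ih =>
    intro S hS a ha i hi hai
    by_cases hP : ∃ j ∈ S, ∃ k ∈ S, j ≠ k ∧ ∃ c : L, ∀ᶠ n in (𝒰 : Filter ℕ),
        (f j n : L) = c * f k n
    · obtain ⟨j, hj, k, hk, hjk, c, hc⟩ := hP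
      by_cases hij : j = i
      · subst hij
        exact ⟨k, hk, hjk.symm, c, hc⟩
      by_cases hik : k = i
      · subst hik
        have hc0 : c ≠ 0 := by
          rintro rfl
          obtain ⟨n, hn⟩ := hc.exists
          rw [zero_mul] at hn
          exact (f j n).ne_zero hn
        refine ⟨j, hj, hjk, c⁻¹, hc.mono fun n hn => ?_⟩
        rw [hn, inv_mul_cancel_left₀ hc0]
      · have hS' : (S.erase j).card = N := by
          rw [Finset.card_erase_of_mem hj, hS]
          rfl
        have hkS : k ∈ S.erase j := Finset.mem_erase.mpr ⟨hjk.symm, hk⟩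
        have hiS : i ∈ S.erase j := Finset.mem_erase.mpr ⟨fun h => hij h.symm, hi⟩
        obtain ⟨j', hj', hne, hc'⟩ := ih (S.erase j) hS'
          (Function.update a k (a k + a j * c)) (by
            refine (ha.and hc).mono fun n hn => ?_
            obtain ⟨h1, h2⟩ := hn
            rw [← Finset.add_sum_erase S _ hj, ← Finset.add_sum_erase _ _ hkS] at h1
            rw [← Finset.add_sum_erase _ _ hkS, Function.update_self]
            have h3 : ∑ x ∈ (S.erase j).erase k,
                Function.update a k (a k + a j * c) x * (f x n : L) =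
                  ∑ x ∈ (S.erase j).erase k, a x * (f x n : L) := by
              refine Finset.sum_congr rfl fun x hx => ?_
              rw [Function.update_of_ne (Finset.ne_of_mem_erase hx)]
            rw [h3, ← h1, h2]
            ring) i hiS (by
            rw [Function.update_of_ne (fun h => hik h.symm)]
            exact hai)
        exact ⟨j', Finset.mem_of_mem_erase hj', hne, hc'⟩
    · exfalso
      let e : Fin S.card ≃ S := S.equivFin.symm
      have h1 := hU G hG 𝒰 S.card (fun l n => f (e l) n) (fun l n => hf _ n) (by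
        intro l l' hl c hc
        refine hP ⟨e l, (e l).2, e l', (e l').2, ?_, c, hc⟩
        intro h
        exact hl (e.injective (Subtype.ext h))) (fun l => a (e l)) (by
        refine ha.mono fun n hn => ?_
        rw [← hn, ← Finset.sum_coe_sort S (fun i => a i * (f i n : L))]
        exact Fintype.sum_equiv e _ _ (fun l => rfl))
      have h2 := congrFun h1 (e.symm ⟨i, hi⟩)
      simp only [Equiv.apply_symm_apply, Pi.zero_apply] at h2
      exact hai h2

end UT

theorem t_UT2 (h : S_ULI) : S_UT2 := by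
  classical
  intro L _ _ G hG m r hrm
  by_contra hcon
  push Not at hcon
  -- a sequence of solutions
  let P : ((Fin m → Lˣ) × (Fin r → L)) → Prop := fun x =>
    (∀ i, x.1 i ∈ G) ∧ (∀ k, In0 G (x.2 k)) ∧ ∑ i, (x.1 i : L) = ∑ k, x.2 k
  let rel : ((Fin m → Lˣ) × (Fin r → L)) → ((Fin m → Lˣ) × (Fin r → L)) → Prop := fun x y =>
    ∀ i j, i ≠ j → (y.1 i : L) / y.1 j ≠ (x.1 i : L) / x.1 j
  obtain ⟨s, hsP, hsr⟩ : ∃ s : ℕ → ((Fin m → Lˣ) × (Fin r → L)), (∀ n, P (s n)) ∧
      ∀ a b, a < b → rel (s a) (s b) := by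
    refine exists_seq_of_forall_finset_exists P rel ?_
    intro T _
    obtain ⟨u, w, hu, hw, huw, hne⟩ := hcon
      (⋃ x ∈ T, ⋃ i : Fin m, ⋃ j : Fin m, {(x.1 i : L) / x.1 j}) (by
        refine Set.Finite.biUnion T.finite_toSet fun x _ => ?_
        exact Set.finite_iUnion fun i => Set.finite_iUnion fun j => Set.finite_singleton _)
    refine ⟨(u, w), ⟨hu, hw, huw⟩, fun x hx i j hij heq => hne i j hij ?_⟩
    simp only [Set.mem_iUnion, Set.mem_singleton_iff]
    exact ⟨x, hx, i, j, heq⟩
  let 𝒰 : Ultrafilter ℕ := hyperfilter ℕ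
  -- the functions u are pairwise not proportional
  have hprop : ∀ i j : Fin m, i ≠ j → ∀ c : L,
      ¬ ∀ᶠ n in (𝒰 : Filter ℕ), ((s n).1 i : L) = c * (s n).1 j := by
    intro i j hij c hc
    have hsub : {n : ℕ | ((s n).1 i : L) = c * (s n).1 j}.Subsingleton := by
      have key : ∀ a b : ℕ, a < b → ((s a).1 i : L) = c * (s a).1 j →
          ((s b).1 i : L) = c * (s b).1 j → False := by
        intro a b hab h1 h2
        apply hsr a b hab i j hij
        rw [h1, h2, mul_div_cancel_right₀ _ (Units.ne_zero _),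
          mul_div_cancel_right₀ _ (Units.ne_zero _)]
      intro a ha b hb
      rcases lt_trichotomy a b with h1 | h1 | h1
      · exact (key a b h1 ha hb).elim
      · exact h1
      · exact (key b a h1 hb ha).elim
    exact (notMem_hyperfilter_of_finite hsub.finite) hc
  -- the functions w
  let W : Fin r → ℕ → Lˣ := fun k n =>
    if hk : (s n).2 k ≠ 0 then Units.mk0 ((s n).2 k) hk else 1
  let f : Fin m ⊕ Fin r → ℕ → Lˣ := Sum.elim (fun i n => (s n).1 i) W
  have hf : ∀ x n, f x n ∈ G := by
    rintro (i | k) n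
    · exact (hsP n).1 i
    · change (if hk : (s n).2 k ≠ 0 then Units.mk0 ((s n).2 k) hk else 1) ∈ G
      split_ifs with hk
      · rcases (hsP n).2.1 k with h0 | ⟨u, hu, huk⟩
        · exact absurd h0 hk
        · have : Units.mk0 ((s n).2 k) hk = u := by
            ext
            rw [Units.val_mk0, huk]
          rw [this]
          exact hu
      · exact G.one_mem
  let a : Fin m ⊕ Fin r → L := Sum.elim (fun _ => 1)
    (fun k => if ∀ᶠ n in (𝒰 : Filter ℕ), (s n).2 k ≠ 0 then -1 else 0)
  have hW : ∀ᶠ n in (𝒰 : Filter ℕ), ∀ k : Fin r, a (Sum.inr k) * (W k n : L) = -(s n).2 k := by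
    rw [eventually_all]
    intro k
    by_cases hk : ∀ᶠ n in (𝒰 : Filter ℕ), (s n).2 k ≠ 0
    · refine hk.mono fun n hn => ?_
      change (if ∀ᶠ n in (𝒰 : Filter ℕ), (s n).2 k ≠ 0 then (-1 : L) else 0) * _ = _
      rw [if_pos hk]
      change (-1 : L) * ((if hk : (s n).2 k ≠ 0 then Units.mk0 ((s n).2 k) hk else 1 : Lˣ) : L) = _
      rw [dif_pos hn, Units.val_mk0]
      ring
    · have hk' := hk
      rw [Ultrafilter.eventually_not, not_not] at hk'
      refine hk'.mono fun n hn => ?_
      change (if ∀ᶠ n in (𝒰 : Filter ℕ), (s n).2 k ≠ 0 then (-1 : L) else 0) * _ = _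
      rw [if_neg hk, hn, zero_mul, neg_zero]
  have hsum : ∀ᶠ n in (𝒰 : Filter ℕ), ∑ x ∈ Finset.univ, a x * (f x n : L) = 0 := by
    refine hW.mono fun n hn => ?_
    rw [Fintype.sum_sum_type]
    have h1 : ∀ k, a (Sum.inr k) * (f (Sum.inr k) n : L) = -(s n).2 k := hn
    have h2 : ∀ i, a (Sum.inl i) * (f (Sum.inl i) n : L) = ((s n).1 i : L) := fun i => one_mul _
    rw [Finset.sum_congr rfl fun i _ => h2 i, Finset.sum_congr rfl fun k _ => h1 k,
      (hsP n).2.2, Finset.sum_neg_distrib, add_neg_cancel]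
  have hiso := isolated (h L) G hG 𝒰 f hf _ Finset.univ rfl a hsum
  have hk : ∀ i : Fin m, ∃ k : Fin r, ∃ c : L, ∀ᶠ n in (𝒰 : Filter ℕ),
      ((s n).1 i : L) = c * W k n := by
    intro i
    obtain ⟨j, -, hji, c, hc⟩ := hiso (Sum.inl i) (Finset.mem_univ _) one_ne_zero
    rcases j with i' | k
    · exact absurd hc (hprop i i' (fun h => hji (by rw [h])) c)
    · exact ⟨k, c, hc⟩
  choose κ c hc using hk
  obtain ⟨i, j, hij, hκ⟩ := Fintype.exists_ne_map_eq_of_card_lt κ (by simpa using hrm)
  have hcj : c j ≠ 0 := by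
    intro h0
    obtain ⟨n, hn⟩ := (hc j).exists
    rw [h0, zero_mul] at hn
    exact Units.ne_zero _ hn
  refine hprop i j hij (c i * (c j)⁻¹) (((hc i).and (hc j)).mono fun n hn => ?_)
  rw [hn.1, hn.2, hκ, mul_assoc, inv_mul_cancel_left₀ hcj]

/-! ## Linear independence of germs over all fields of characteristic zero -/

lemma fg_map {A B : Type} [Group A] [Group B] {G : Subgroup A} (hG : G.FG) (e : A →* B) :
    (G.map e).FG := by
  classical
  obtain ⟨T, hT⟩ := hG
  exact ⟨T.image e, by rw [Finset.coe_image, ← MonoidHom.map_closure, hT]⟩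

lemma uli_of_hom {L L' : Type} [Field L] [Field L'] (φ : L →+* L') (h : ULI L') : ULI L := by
  intro G hG 𝒰 m g hg hne c hc
  have h1 := h (G.map (Units.map (φ : L →* L'))) (fg_map hG _) 𝒰 m
    (fun i n => Units.map (φ : L →* L') (g i n)) (fun i n => ⟨_, hg i n, rfl⟩) (by
      intro i j hij c' hc'
      obtain ⟨n, hn⟩ := hc'.exists
      have hn' : φ (g i n) = c' * φ (g j n) := hn
      have hφj : φ (g j n) ≠ 0 := by
        rw [map_ne_zero]
        exact Units.ne_zero _
      have hcc : c' = φ ((g i n : L) / g j n) := by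
        rw [map_div₀, hn', mul_div_cancel_right₀ _ hφj]
      refine hne i j hij ((g i n : L) / g j n) (hc'.mono fun l hl => ?_)
      have hl' : φ (g i l) = c' * φ (g j l) := hl
      rw [hcc, ← map_mul] at hl'
      exact φ.injective hl') (fun i => φ (c i)) (hc.mono fun n hn => by
      have h2 : ∑ i, φ (c i) * φ (g i n) = 0 := by
        rw [← map_zero φ, ← hn, map_sum]
        exact Finset.sum_congr rfl fun i _ => (map_mul φ _ _).symm
      exact h2)
  funext i
  have h2 := congrFun h1 i
  exact (map_eq_zero φ).mp h2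

/-- one more element -/
lemma step (hS : S_ULI_STEP) {L : Type} [Field L] [CharZero L] [IsAlgClosed L] (k : Subfield L)
    (hk : IsAlgClosed k) (hU : ULI k) (t : L) :
    ∃ F : Subfield L, IsAlgClosed F ∧ ULI F ∧ k ≤ F ∧ t ∈ F := by
  let E := IntermediateField.adjoin k {t}
  let F := algebraicClosure E L
  have hF : IsAlgClosed F := (algebraicClosure.isAlgClosure E L).isAlgClosed
  have htE : t ∈ E := IntermediateField.mem_adjoin_simple_self k t
  let t' : F := algebraMap E F ⟨t, htE⟩
  have hEF : ∀ (x : L) (hx : x ∈ E), algebraMap E F ⟨x, hx⟩ ∈ IntermediateField.adjoin k {t'} := by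
    intro x hx
    induction hx using IntermediateField.adjoin_induction with
    | mem x hx =>
      rw [Set.mem_singleton_iff] at hx
      subst hx
      exact IntermediateField.mem_adjoin_simple_self k t'
    | algebraMap x =>
      exact IntermediateField.algebraMap_mem _ x
    | add x y hx hy h1 h2 =>
      exact add_mem h1 h2
    | inv x hx h1 =>
      exact inv_mem h1
    | mul x y hx hy h1 h2 =>
      exact mul_mem h1 h2
  have halg : Algebra.IsAlgebraic (IntermediateField.adjoin k {t'}) F := by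
    constructor
    intro y
    have h1 : IsAlgebraic E y := (algebraicClosure.isAlgebraic E L).isAlgebraic y
    let φ : E →+* IntermediateField.adjoin k {t'} :=
      (algebraMap E F).codRestrict (IntermediateField.adjoin k {t'}) (fun x => hEF x.1 x.2)
    exact h1.ringHom_of_comp_eq φ (RingHom.id F) φ.injective rfl
  have hUF : ULI F := hS k F t' halg hU
  refine ⟨F.toSubfield, ?_, ?_, ?_, ?_⟩
  · exact hF
  · exact hUF
  · intro x hx
    exact F.algebraMap_mem (algebraMap k E ⟨x, hx⟩)
  · exact F.algebraMap_mem ⟨t, htE⟩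

lemma finite_set (hQ : S_ULI_Q) (hS : S_ULI_STEP) {L : Type} [Field L] [CharZero L]
    [IsAlgClosed L] (S : Finset L) :
    ∃ F : Subfield L, IsAlgClosed F ∧ ULI F ∧ ∀ x ∈ S, x ∈ F := by
  classical
  induction S using Finset.induction_on with
  | empty =>
    refine ⟨(algebraicClosure ℚ L).toSubfield, ?_, ?_, ?_⟩
    · exact (algebraicClosure.isAlgClosure ℚ L).isAlgClosed
    · have : Algebra.IsAlgebraic ℚ (algebraicClosure ℚ L) := algebraicClosure.isAlgebraic ℚ L
      let φ : algebraicClosure ℚ L →ₐ[ℚ] AlgebraicClosure ℚ := IsAlgClosed.lift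
      exact uli_of_hom (φ : algebraicClosure ℚ L →+* AlgebraicClosure ℚ) hQ
    · intro x hx
      exact absurd hx (Finset.notMem_empty x)
  | insert t S ht ih =>
    obtain ⟨k, hk, hU, hkS⟩ := ih
    obtain ⟨F, hF, hUF, hkF, htF⟩ := step hS k hk hU t
    refine ⟨F, hF, hUF, fun x hx => ?_⟩
    rcases Finset.mem_insert.mp hx with rfl | hx
    · exact htF
    · exact hkF (hkS x hx)

lemma uli_closed (hQ : S_ULI_Q) (hS : S_ULI_STEP) (L : Type) [Field L] [CharZero L]
    [IsAlgClosed L] : ULI L := by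
  classical
  intro G hG 𝒰 m g hg hne c hc
  obtain ⟨T, hT⟩ := hG
  obtain ⟨F, -, hUF, hF⟩ := finite_set hQ hS
    (T.image (fun u : Lˣ => (u : L)) ∪ Finset.univ.image c)
  let ψ : Fˣ →* Lˣ := Units.map (F.subtype : F →* L)
  have hlift : ∀ u ∈ T, ∃ v : Fˣ, ψ v = u := by
    intro u hu
    have h1 : (u : L) ∈ F := hF _ (Finset.mem_union_left _ (Finset.mem_image_of_mem _ hu))
    refine ⟨Units.mk0 ⟨u, h1⟩ ?_, ?_⟩
    · intro h
      exact u.ne_zero (congrArg Subtype.val h)
    · ext
      rfl
  choose! lf hlf using hlift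
  let G' : Subgroup Fˣ := Subgroup.closure ((T.image lf : Finset Fˣ) : Set Fˣ)
  have hmap : G'.map ψ = G := by
    rw [MonoidHom.map_closure, ← hT]
    congr 1
    ext u
    constructor
    · rintro ⟨v, hv, rfl⟩
      obtain ⟨u, hu, rfl⟩ := Finset.mem_image.mp (Finset.mem_coe.mp hv)
      rw [hlf u hu]
      exact hu
    · intro hu
      exact ⟨lf u, Finset.mem_coe.mpr (Finset.mem_image_of_mem _ hu), hlf u hu⟩
  have hg' : ∀ i n, ∃ v ∈ G', ψ v = g i n := by
    intro i n
    have h1 := hg i n
    rw [← hmap] at h1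
    exact h1
  choose g' hgG' hgg' using hg'
  have hval : ∀ i n, ((g' i n : F) : L) = g i n := fun i n => by
    rw [← hgg' i n]
    rfl
  have hcF : ∀ i, c i ∈ F := fun i =>
    hF _ (Finset.mem_union_right _ (Finset.mem_image_of_mem _ (Finset.mem_univ i)))
  have h1 := hUF G' ⟨_, rfl⟩ 𝒰 m g' hgG' (by
    intro i j hij d hd
    refine hne i j hij (d : L) (hd.mono fun n hn => ?_)
    rw [← hval, ← hval, hn]
    rfl) (fun i => ⟨c i, hcF i⟩) (by
    refine hc.mono fun n hn => ?_
    apply Subtype.ext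
    have h2 : ((∑ i, (⟨c i, hcF i⟩ : F) * (g' i n : F) : F) : L) = ∑ i, c i * (g i n : L) := by
      rw [← Subfield.coe_subtype, map_sum]
      refine Finset.sum_congr rfl fun i _ => ?_
      rw [map_mul, Subfield.coe_subtype, hval]
    rw [h2, hn]
    rfl)
  funext i
  exact congrArg Subtype.val (congrFun h1 i)

theorem t_ULI (hQ : S_ULI_Q) (hS : S_ULI_STEP) : S_ULI := by
  intro L _ _
  exact uli_of_hom (algebraMap L (AlgebraicClosure L)) (uli_closed hQ hS (AlgebraicClosure L))

end Pool.Agent.K1H65.PA
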